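import Pool.Agent.LibPil19.F3

namespace Pool.Agent.Results.MP_99a8bb_nt.SmallGapsPolylog

/-- There is an absolute constant `C` such that for all `k ≥ 1` and `X ≥ 2` the number of perfect
powers `m ≤ X` that are followed by another perfect power at distance at most `k` is at most
`C * k ^ 9 * (log X) ^ 16`. In particular, for every `B ≥ 0`, at most `O((log X) ^ (16 + 9 * B))`
perfect powers `m ≤ X` are followed by another one at distance at most `(log X) ^ B`. -/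
theorem result :
    (∃ C : ℝ, ∀ k X : ℕ, 1 ≤ k → 2 ≤ X →
      ({m : ℕ | m ≤ X ∧ (∃ a b : ℕ, 2 ≤ b ∧ m = a ^ b) ∧
        ∃ m' : ℕ, (∃ a b : ℕ, 2 ≤ b ∧ m' = a ^ b) ∧ m < m' ∧ m' ≤ m + k}.ncard : ℝ)
        ≤ C * (k : ℝ) ^ 9 * (Real.log X) ^ 16) ∧
    (∀ B : ℝ, 0 ≤ B → ∃ C : ℝ, ∀ X : ℕ, 2 ≤ X →
      ({m : ℕ | m ≤ X ∧ (∃ a b : ℕ, 2 ≤ b ∧ m = a ^ b) ∧
        ∃ m' : ℕ, (∃ a b : ℕ, 2 ≤ b ∧ m' = a ^ b) ∧ m < m' ∧
          (m' : ℝ) ≤ m + (Real.log X) ^ B}.ncard : ℝ)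
        ≤ C * (Real.log X) ^ (16 + 9 * B)) :=
  ⟨LibPil19.count_uniform, LibPil19.count_log⟩

end Pool.Agent.Results.MP_99a8bb_nt.SmallGapsPolylog
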